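import Pool.Agent.Helper50.BL.Stmts
import Pool.Agent.Helper50.BL.Base

/-! Set systems with small pairwise intersections: Kraft inequality of the class step. -/

set_option autoImplicit false

namespace Pool.Agent.Helper50.BL

open Finset
open scoped Classical

theorem kst_nbr_symm {V J : Type} [DecidableEq V] (S : J → Finset V) (B : Finset J) (x y : V)
    (h : y ∈ nbr S B x) : x ∈ nbr S B y := by
  unfold nbr at h ⊢
  rw [Finset.mem_insert, Finset.mem_biUnion] at h ⊢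
  rcases h with h | ⟨j, hj, hy⟩
  · exact Or.inl h.symm
  · rw [Finset.mem_filter] at hj
    exact Or.inr ⟨j, Finset.mem_filter.2 ⟨hj.1, hy⟩, hj.2⟩

theorem kst_nbr_card {V J : Type} [DecidableEq V] [Fintype J] (S : J → Finset V) (I B : Finset J) (t : ℕ)
    (D : ℝ) (hBI : B ⊆ I) (hDeg : Deg S t) (hD : ∀ i ∈ I, (#(S i) : ℝ) ≤ D) (hD0 : 0 ≤ D)
    (x : V) : (#(nbr S B x) : ℝ) ≤ 1 + t * D := by
  have h1 : #(nbr S B x) ≤ #((B.filter (fun j => x ∈ S j)).biUnion S) + 1 :=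
    Finset.card_insert_le _ _
  have h2 : #((B.filter (fun j => x ∈ S j)).biUnion S) ≤
      ∑ j ∈ B.filter (fun j => x ∈ S j), #(S j) := Finset.card_biUnion_le
  have h3 : ((∑ j ∈ B.filter (fun j => x ∈ S j), #(S j) : ℕ) : ℝ) ≤
      (#(B.filter (fun j => x ∈ S j)) : ℝ) * D := by
    push_cast
    have := Finset.sum_le_card_nsmul (B.filter (fun j => x ∈ S j)) (fun j => (#(S j) : ℝ)) D
      (fun j hj => hD j (hBI (Finset.mem_filter.1 hj).1))
    rwa [nsmul_eq_mul] at this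
  have h4 : #(B.filter (fun j => x ∈ S j)) ≤ t := by
    refine le_trans (Finset.card_le_card ?_) (hDeg x)
    intro j hj
    rw [Finset.mem_filter] at hj ⊢
    exact ⟨Finset.mem_univ _, hj.2⟩
  have h5 : (#(B.filter (fun j => x ∈ S j)) : ℝ) * D ≤ t * D :=
    mul_le_mul_of_nonneg_right (by exact_mod_cast h4) hD0
  have h6 : (#(nbr S B x) : ℝ) ≤ ((#((B.filter (fun j => x ∈ S j)).biUnion S) : ℕ) : ℝ) + 1 := by
    exact_mod_cast h1
  have h7 : ((#((B.filter (fun j => x ∈ S j)).biUnion S) : ℕ) : ℝ) ≤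
      ((∑ j ∈ B.filter (fun j => x ∈ S j), #(S j) : ℕ) : ℝ) := by exact_mod_cast h2
  linarith

theorem kst_pol (h2 : ST_ITS) {V J : Type} [Fintype V] [DecidableEq V] [Fintype J]
    [DecidableEq J] (N : Net V) (S : J → Finset V) (I B : Finset J) (κ βu ζu D : ℝ) (t : ℕ)
    (hBI : B ⊆ I) (hDeg : Deg S t) (hD : ∀ i ∈ I, (#(S i) : ℝ) ≤ D) (hβu : 0 ≤ βu)
    (hβD : βu * D ≤ 1) (hK : Kraft N βu ζu) (x : V) (F : Finset (Pol N.ι J)) :
    ∑ p ∈ F.filter (fun p => x ∈ psup N.φ S I B p),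
      Real.exp (-(pcost N.H κ p) + βu * (#(psup N.φ S I B p) : ℝ)) ≤
        ζu + 12 * t * Real.exp (-κ) := by
  have e0 : F = F.toLeft.disjSum (F.toRight.toLeft.disjSum F.toRight.toRight) := by
    rw [Finset.toLeft_disjSum_toRight, Finset.toLeft_disjSum_toRight]
  rw [Finset.sum_filter, e0, Finset.sum_disjSum, Finset.sum_disjSum]
  have a1 : ∑ a ∈ F.toLeft, (if x ∈ psup N.φ S I B (Sum.inl a : Pol N.ι J) then
      Real.exp (-(pcost N.H κ (Sum.inl a : Pol N.ι J)) +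
        βu * (#(psup N.φ S I B (Sum.inl a : Pol N.ι J)) : ℝ)) else 0)
      ≤ ζu := by
    rw [← Finset.sum_filter]
    refine le_trans (le_of_eq ?_) (hK x F.toLeft)
    refine Finset.sum_congr ?_ fun a _ => rfl
    ext a
    simp [psup, isupp]
  have a2 : ∑ p ∈ F.toRight.toLeft, (if x ∈ psup N.φ S I B (Sum.inr (Sum.inl p) : Pol N.ι J) then
      Real.exp (-(pcost N.H κ (Sum.inr (Sum.inl p) : Pol N.ι J)) +
        βu * (#(psup N.φ S I B (Sum.inr (Sum.inl p) : Pol N.ι J)) : ℝ)) else 0)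
      ≤ 6 * t * Real.exp (-κ) := by
    rw [← Finset.sum_filter]
    exact h2 V J S I t D κ βu hDeg hD hβu hβD x _
  have a3 : ∑ p ∈ F.toRight.toRight, (if x ∈ psup N.φ S I B (Sum.inr (Sum.inr p) : Pol N.ι J) then
      Real.exp (-(pcost N.H κ (Sum.inr (Sum.inr p) : Pol N.ι J)) +
        βu * (#(psup N.φ S I B (Sum.inr (Sum.inr p) : Pol N.ι J)) : ℝ)) else 0)
      ≤ 6 * t * Real.exp (-κ) := by
    rw [← Finset.sum_filter]
    exact h2 V J S B t D κ βu hDeg (fun i hi => hD i (hBI hi)) hβu hβD x _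
  linarith

theorem kst_sub {α : Type} (F : Finset α) (P R : α → Prop) {iP : DecidablePred P}
    {iR : DecidablePred R} (f : α → ℝ) (hf : ∀ a, 0 ≤ f a) (h : ∀ a, P a → R a) :
    ∑ a ∈ F.filter P, f a ≤ ∑ a ∈ F.filter R, f a := by
  refine Finset.sum_le_sum_of_subset_of_nonneg ?_ fun a _ _ => hf a
  intro a ha
  rw [Finset.mem_filter] at ha ⊢
  exact ⟨ha.1, h a ha.2⟩

theorem st_KST (h1 : ST_KPK) (h2 : ST_ITS) (h3 : ST_LOC) : ST_KST := by
  intro V J _ _ _ _ N S I B T Lam κ β βu ζu D t hκ hβ hBI hDeg hD hD0 hβu hβD hζu hK hnum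
  intro x F
  have hz : 0 ≤ ζu + 12 * t * Real.exp (-κ) := by positivity
  have key := h1 V (Pol N.ι J) (psup N.φ S I B) (pcost N.H κ) (nbr S B) (1 + t * D) βu
    (ζu + 12 * t * Real.exp (-κ)) (fun x => Finset.mem_insert_self _ _)
    (fun x y h => kst_nbr_symm S B x y h) (kst_nbr_card S I B t D hBI hDeg hD hD0) hβu hz
    (kst_pol h2 N S I B κ βu ζu D t hBI hDeg hD hβu hβD hK) hnum x F
  refine le_trans ?_ key
  have e1 : ∀ Q : Finset (Pol N.ι J), -((stepNet N S I B T Lam κ β hκ hβ).H Q) +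
      β * (#(isupp ((stepNet N S I B T Lam κ β hκ hβ).φ Q)) : ℝ) =
      -(∑ p ∈ Q, pcost N.H κ p) := by
    intro Q
    simp only [stepNet]
    ring
  have e2 : ∀ Q ∈ F.filter (fun Q => (stepNet N S I B T Lam κ β hκ hβ).φ Q x ≠ 0),
      Real.exp (-((stepNet N S I B T Lam κ β hκ hβ).H Q) +
      β * (#(isupp ((stepNet N S I B T Lam κ β hκ hβ).φ Q)) : ℝ)) =
      Real.exp (-(∑ p ∈ Q, pcost N.H κ p)) := fun Q _ => by rw [e1 Q]
  rw [Finset.sum_congr rfl e2]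
  refine kst_sub _ _ _ _ (fun Q => (Real.exp_pos _).le) ?_
  intro Q hQx
  have hQx' : clf N.φ S I B T Lam Q x ≠ 0 := hQx
  unfold clf at hQx'
  by_cases hc : Conn (Rel N.φ S I B) Q
  · rw [if_pos hc] at hQx'
    exact ⟨hc, (h3 V J N.ι N.φ S I B T Lam).1 Q x hQx'⟩
  · rw [if_neg hc] at hQx'
    exact absurd rfl hQx'

end Pool.Agent.Helper50.BL
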